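import Pool.Agent.R327.SE.Sk

/-!
# The torus as a smooth manifold with a smooth volume
-/

set_option autoImplicit false

open MeasureTheory Filter Topology Set
open scoped Manifold ContDiff

noncomputable section

namespace Pool.Agent.R327.SE

abbrev E2 : Type := EuclideanSpace ℝ (Fin 2)

/-- The projection `E2 → MM`. -/
def toM (x : E2) : MM := (((x 0 : ℝ) : TT), ((x 1 : ℝ) : TT))

/-- `E2 ≃ ℝ × ℝ` -/
def e2 : E2 ≃ₜ ℝ × ℝ := (PiLp.homeomorph 2 (fun _ : Fin 2 => ℝ)).trans Homeomorph.finTwoArrow

theorem e2_apply (x : E2) : e2 x = (x 0, x 1) := rfl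

/-- The restriction of the projection to the open square of side `1` centred at `a`. -/
def cube (a : E2) : OpenPartialHomeomorph E2 MM :=
  e2.toOpenPartialHomeomorph.trans
    ((AddCircle.openPartialHomeomorphCoe (1 : ℝ) (a 0 - 1 / 2)).prod
      (AddCircle.openPartialHomeomorphCoe (1 : ℝ) (a 1 - 1 / 2)))

/-- A lift of a point of the torus. -/
def liftM (p : MM) : E2 :=
  !₂[((AddCircle.equivIco (1 : ℝ) 0 p.1 : ℝ)), ((AddCircle.equivIco (1 : ℝ) 0 p.2 : ℝ))]

theorem toM_liftM (p : MM) : toM (liftM p) = p :=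
  Prod.ext ((AddCircle.equivIco (1 : ℝ) 0).symm_apply_apply p.1)
    ((AddCircle.equivIco (1 : ℝ) 0).symm_apply_apply p.2)

theorem cube_apply (a x : E2) : cube a x = toM x := rfl

/-- the open box -/
def boxR (a : E2) : Set (ℝ × ℝ) :=
  Ioo (a 0 - 1 / 2) (a 0 - 1 / 2 + 1) ×ˢ Ioo (a 1 - 1 / 2) (a 1 - 1 / 2 + 1)

theorem cube_source (a : E2) : (cube a).source = e2 ⁻¹' boxR a := by
  ext x
  constructor
  · rintro ⟨-, h⟩
    exact h
  · intro h
    exact ⟨trivial, h⟩

theorem self_mem (a : E2) : a ∈ (cube a).source := by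
  rw [cube_source]
  simp only [mem_preimage, boxR, e2_apply, mem_prod, mem_Ioo]
  refine ⟨⟨?_, ?_⟩, ⟨?_, ?_⟩⟩ <;> linarith

/-- The smooth structure of the torus: the charts are the local inverses of `E2 → MM`. -/
instance csM : ChartedSpace E2 MM where
  atlas := {e | ∃ a : E2, e = (cube a).symm}
  chartAt p := (cube (liftM p)).symm
  mem_chart_source p := by
    have h := self_mem (liftM p)
    have := (cube (liftM p)).map_source h
    rw [cube_apply, toM_liftM] at this
    exact this
  chart_mem_atlas p := ⟨_, rfl⟩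

theorem coe_eq_of {x y z : ℝ} (h : (y : TT) = (x : TT)) : ((z : ℝ) : TT) = ((z + (y - x) : ℝ) : TT) := by
  rw [AddCircle.coe_add, AddCircle.coe_sub, h, sub_self, add_zero]

/-- Near a point `x` the chart composed with the projection is a translation. -/
theorem chart_comp_toM (a x : E2) (hx : toM x ∈ (cube a).target) :
    ∃ n : E2, ∀ᶠ y in 𝓝 x, (cube a).symm (toM y) = y + n := by
  set z : E2 := (cube a).symm (toM x) with hz
  have hzs : z ∈ (cube a).source := (cube a).map_target hx
  have hzx : toM z = toM x := by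
    rw [← cube_apply a z]
    exact (cube a).right_inv hx
  refine ⟨z - x, ?_⟩
  have hcont : Continuous fun y : E2 => y + (z - x) := continuous_id.add continuous_const
  have hmem : (fun y : E2 => y + (z - x)) x ∈ (cube a).source := by
    have : x + (z - x) = z := by abel
    change x + (z - x) ∈ (cube a).source
    rw [this]
    exact hzs
  have hev : ∀ᶠ y in 𝓝 x, y + (z - x) ∈ (cube a).source :=
    hcont.continuousAt.preimage_mem_nhds ((cube a).open_source.mem_nhds hmem)
  filter_upwards [hev] with y hy
  have hyt : toM y = toM (y + (z - x)) := by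
    have h0 : ((z 0 : ℝ) : TT) = ((x 0 : ℝ) : TT) := congrArg Prod.fst hzx
    have h1 : ((z 1 : ℝ) : TT) = ((x 1 : ℝ) : TT) := congrArg Prod.snd hzx
    exact Prod.ext (coe_eq_of h0) (coe_eq_of h1)
  rw [hyt, ← cube_apply a]
  exact (cube a).left_inv hy

instance imM : IsManifold (𝓡 2) ∞ MM := by
  apply isManifold_of_contDiffOn
  rintro e e' ⟨a, rfl⟩ ⟨b, rfl⟩
  intro x hx
  have hx1 : x ∈ ((cube a).symm.symm ≫ₕ (cube b).symm).source := hx.1
  have hx2 : toM x ∈ (cube b).target := by
    have h1 := hx1.2
    exact h1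
  obtain ⟨n, hn⟩ := chart_comp_toM b x hx2
  have h2 : ContDiffAt ℝ ∞ (fun y : E2 => y + n) x := contDiffAt_id.add contDiffAt_const
  have h3 : ContDiffAt ℝ ∞ (fun y : E2 => (cube b).symm (toM y)) x :=
    h2.congr_of_eventuallyEq hn
  exact h3.contDiffWithinAt

theorem contMDiff_toM : ContMDiff (𝓡 2) (𝓡 2) ∞ toM := by
  intro x
  have hmem : (cube x).symm ∈ atlas E2 MM := ⟨x, rfl⟩
  have hmax : (cube x).symm ∈ IsManifold.maximalAtlas (𝓡 2) ∞ MM :=
    IsManifold.subset_maximalAtlas hmem
  have h1 := contMDiffOn_symm_of_mem_maximalAtlas hmax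
  exact h1.contMDiffAt ((cube x).open_source.mem_nhds (self_mem x))

/-- maps with a smooth lift are smooth -/
theorem contMDiff_of_lift (f : MM → MM) (F : E2 → E2) (hF : ContDiff ℝ ∞ F)
    (h : ∀ x, f (toM x) = toM (F x)) : ContMDiff (𝓡 2) (𝓡 2) ∞ f := by
  intro p
  set a := liftM p with ha
  have hmem : (cube a).symm ∈ atlas E2 MM := ⟨a, rfl⟩
  have hmax : (cube a).symm ∈ IsManifold.maximalAtlas (𝓡 2) ∞ MM :=
    IsManifold.subset_maximalAtlas hmem
  have hp : p ∈ (cube a).target := by
    have := (cube a).map_source (self_mem a)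
    rw [cube_apply, ha, toM_liftM] at this
    exact this
  have h1 : ContMDiffAt (𝓡 2) (𝓡 2) ∞ (cube a).symm p :=
    (contMDiffOn_of_mem_maximalAtlas hmax).contMDiffAt ((cube a).open_target.mem_nhds hp)
  have h2 : ContMDiffAt (𝓡 2) (𝓡 2) ∞ ((toM ∘ F) ∘ (cube a).symm) p :=
    ((contMDiff_toM.comp hF.contMDiff) _).comp p h1
  refine h2.congr_of_eventuallyEq ?_
  filter_upwards [(cube a).open_target.mem_nhds hp] with q hq
  have h3 : toM ((cube a).symm q) = q := (cube a).right_inv hq
  simp only [Function.comp_apply]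
  rw [← h, h3]

/-! ### the volume -/

theorem e2_mp : MeasurePreserving e2 := by
  have h1 : MeasurePreserving (fun x : E2 => WithLp.ofLp x) :=
    PiLp.volume_preserving_ofLp (Fin 2)
  exact (volume_preserving_finTwoArrow ℝ).comp h1

theorem toM_mp (a : E2) : MeasurePreserving toM (volume.restrict (cube a).source) volume := by
  rw [cube_source]
  have h1 : MeasurePreserving e2 (volume.restrict (e2 ⁻¹' boxR a)) (volume.restrict (boxR a)) :=
    e2_mp.restrict_preimage (measurableSet_Ioo.prod measurableSet_Ioo)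
  have h2 : ∀ t : ℝ, MeasurePreserving (fun x : ℝ => (x : TT)) (volume.restrict (Ioo t (t + 1)))
      volume := by
    intro t
    have := AddCircle.measurePreserving_mk 1 t
    rw [← restrict_Ioo_eq_restrict_Ioc] at this
    exact this
  have h3 := (h2 (a 0 - 1 / 2)).prod (h2 (a 1 - 1 / 2))
  rw [Measure.prod_restrict] at h3
  exact h3.comp h1

theorem chart_vol (e : OpenPartialHomeomorph MM E2) (he : e ∈ atlas E2 MM) :
    Measure.map e ((volume : Measure MM).restrict e.source) =
      (volume : Measure E2).restrict e.target := by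
  obtain ⟨a, rfl⟩ := he
  have hs : ((cube a).symm).source = (cube a).target := rfl
  have ht : ((cube a).symm).target = (cube a).source := rfl
  rw [hs, ht]
  have hmp := toM_mp a
  have hT : MeasurableSet (cube a).target := (cube a).open_target.measurableSet
  have hS : MeasurableSet (cube a).source := (cube a).open_source.measurableSet
  have hsub : (cube a).source ⊆ toM ⁻¹' (cube a).target := fun x hx => (cube a).map_source hx
  have h1 : (volume : Measure MM).restrict (cube a).target =
      ((volume : Measure E2).restrict (cube a).source).map toM := by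
    conv_lhs => rw [← hmp.map_eq]
    rw [Measure.restrict_map hmp.measurable hT, Measure.restrict_restrict (hmp.measurable hT),
      inter_eq_right.2 hsub]
  have h2 : AEMeasurable (cube a).symm ((volume : Measure MM).restrict (cube a).target) :=
    (cube a).continuousOn_symm.aemeasurable hT
  rw [h1] at h2 ⊢
  rw [AEMeasurable.map_map_of_aemeasurable h2 hmp.measurable.aemeasurable]
  have h3 : ((cube a).symm ∘ toM) =ᵐ[(volume : Measure E2).restrict (cube a).source] id := by
    filter_upwards [ae_restrict_mem hS] with x hx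
    exact (cube a).left_inv hx
  rw [Measure.map_congr h3, Measure.map_id]

theorem chart_dens (e : OpenPartialHomeomorph MM E2) (he : e ∈ atlas E2 MM) :
    ∃ ρ : E2 → ℝ, ContDiffOn ℝ ∞ ρ e.target ∧ (∀ y ∈ e.target, 0 < ρ y) ∧
      Measure.map (⇑e) ((volume : Measure MM).restrict e.source) =
        (volume.withDensity (fun y => ENNReal.ofReal (ρ y))).restrict e.target := by
  refine ⟨fun _ => 1, contDiffOn_const, fun _ _ => one_pos, ?_⟩
  rw [chart_vol e he]
  congr 1
  simp only [ENNReal.ofReal_one]
  exact (withDensity_one (μ := (volume : Measure E2))).symm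

end Pool.Agent.R327.SE
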