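import Pool.Agent.R327.SE.Tx
import Pool.Agent.R327.SE.Man

/-!
# The skew products as diffeomorphisms
-/

set_option autoImplicit false

open MeasureTheory Filter Topology Set
open scoped Manifold ContDiff

noncomputable section

namespace Pool.Agent.R327.SE

/-- the inverse -/
def Ti (x : ℕ → ℝ) (p : MM) : MM :=
  (p.1 - (al : TT), p.2 - phT (th x) (th_adm x) 1 (p.1 - (al : TT)))

theorem Tx_apply (x : ℕ → ℝ) (p : MM) :
    Tx x p = (p.1 + (al : TT), p.2 + phT (th x) (th_adm x) 1 p.1) := rfl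

theorem Tx_smooth (x : ℕ → ℝ) : ContMDiff (𝓡 2) (𝓡 2) ∞ (Tx x) := by
  refine contMDiff_of_lift _ (fun z => !₂[z 0 + al, z 1 + ph (th x) 1 (z 0)]) ?_ ?_
  · rw [contDiff_euclidean]
    have h0 : ContDiff ℝ ∞ fun z : E2 => z 0 := by fun_prop
    have h1 : ContDiff ℝ ∞ fun z : E2 => z 1 := by fun_prop
    intro i
    fin_cases i
    · exact h0.add contDiff_const
    · exact h1.add ((ph_smooth (th_adm x)).comp h0)
  · intro z
    rw [Tx_apply]
    refine Prod.ext ?_ ?_
    · exact (AddCircle.coe_add 1 _ _).symm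
    · exact (AddCircle.coe_add 1 _ _).symm

theorem Ti_smooth (x : ℕ → ℝ) : ContMDiff (𝓡 2) (𝓡 2) ∞ (Ti x) := by
  refine contMDiff_of_lift _ (fun z => !₂[z 0 - al, z 1 - ph (th x) 1 (z 0 - al)]) ?_ ?_
  · rw [contDiff_euclidean]
    have h0 : ContDiff ℝ ∞ fun z : E2 => z 0 := by fun_prop
    have h1 : ContDiff ℝ ∞ fun z : E2 => z 1 := by fun_prop
    intro i
    fin_cases i
    · exact h0.sub contDiff_const
    · exact h1.sub ((ph_smooth (th_adm x)).comp (h0.sub contDiff_const))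
  · intro z
    have e : ((z 0 : ℝ) : TT) - (al : TT) = ((z 0 - al : ℝ) : TT) := (AddCircle.coe_sub 1 _ _).symm
    refine Prod.ext ?_ ?_
    · exact e
    · show ((z 1 : ℝ) : TT) - phT (th x) (th_adm x) 1 (((z 0 : ℝ) : TT) - (al : TT)) = _
      rw [e]
      exact (AddCircle.coe_sub 1 _ _).symm

/-- the diffeomorphisms -/
def Dx (x : ℕ → ℝ) : Diffeomorph (𝓡 2) (𝓡 2) MM MM ∞ where
  toFun := Tx x
  invFun := Ti x
  left_inv p := by
    rw [Tx_apply]
    simp [Ti]
  right_inv p := by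
    rw [Tx_apply]
    simp [Ti]
  contMDiff_toFun := Tx_smooth x
  contMDiff_invFun := Ti_smooth x

theorem Dx_coe (x : ℕ → ℝ) : (Dx x : MM → MM) = Tx x := rfl

end Pool.Agent.R327.SE
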