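import Pool.Agent.R327.SE.Sk

/-!
# Averaging argument: fast vertical oscillations
-/

set_option autoImplicit false

open MeasureTheory Filter Topology Set
open scoped symmDiff ENNReal

namespace Pool.Agent.R327.SE

/-- the change of the vertical slice of `s` over `u` under the translation by `t` -/
noncomputable def GG (s : Set MM) (p : TT × TT) : ℝ≥0∞ :=
  volume (((fun v : TT => ((p.1, v + p.2) : MM)) ⁻¹' s) ∆ (Prod.mk p.1 ⁻¹' s : Set TT))

theorem GG_meas {s : Set MM} (hs : MeasurableSet s) : Measurable (GG s) := by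
  have h1 : Measurable fun q : (TT × TT) × TT => ((q.1.1, q.2 + q.1.2) : MM) :=
    (measurable_fst.comp measurable_fst).prodMk
      (measurable_snd.add (measurable_snd.comp measurable_fst))
  have h2 : Measurable fun q : (TT × TT) × TT => ((q.1.1, q.2) : MM) :=
    (measurable_fst.comp measurable_fst).prodMk measurable_snd
  have h := measurable_measure_prodMk_left (ν := (volume : Measure TT)) ((h1 hs).symmDiff (h2 hs))
  exact h

theorem GG_le (s : Set MM) (p : TT × TT) : GG s p ≤ 1 := prob_le_one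

theorem dd_sk0 {s : Set MM} (hs : MeasurableSet s) (g : C(TT, TT)) :
    dd (sk 0 g) s = ∫⁻ u : TT, GG s (u, g u) := by
  rw [dd]
  have h : MeasurableSet ((sk 0 g ⁻¹' s) ∆ s) :=
    ((sk 0 g).continuous.measurable hs).symmDiff hs
  change (Measure.prod (volume : Measure TT) (volume : Measure TT)) ((sk 0 g ⁻¹' s) ∆ s) = _
  rw [Measure.prod_apply h]
  refine lintegral_congr fun u => ?_
  rw [GG, preimage_symmDiff]
  congr 2
  ext v
  simp [sk_apply]

theorem GG_lint_swap {s : Set MM} (hs : MeasurableSet s) (w : C(TT, TT)) {h : TT → TT}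
    (hh : Measurable h) :
    ∫⁻ c : TT, ∫⁻ u : TT, GG s (u, w (h u + c)) = ∫⁻ u : TT, ∫⁻ c : TT, GG s (u, w c) := by
  rw [lintegral_lintegral_swap]
  · refine lintegral_congr fun u => ?_
    exact lintegral_add_left_eq_self (fun c => GG s (u, w c)) (h u)
  · refine Measurable.aemeasurable ?_
    exact (GG_meas hs).comp (measurable_snd.prodMk (w.continuous.measurable.comp
      ((hh.comp measurable_snd).add measurable_fst)))

/-- the map `u ↦ w (q • u + c)` -/
def wq (w : C(TT, TT)) (q : ℕ) (c : TT) : C(TT, TT) where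
  toFun u := w (q • u + c)
  continuous_toFun := w.continuous.comp ((continuous_const_smul q).add continuous_const)

theorem wq_conj (w : C(TT, TT)) (q : ℕ) (c t : TT) (ht : q • t = c) (s : Set MM) :
    sk 0 (wq w q c) ⁻¹' s = sk t 0 ⁻¹' (sk 0 (wq w q 0) ⁻¹' (sk (-t) 0 ⁻¹' s)) := by
  ext p
  simp only [mem_preimage, sk_apply, wq, ContinuousMap.coe_mk, add_zero, ContinuousMap.zero_apply,
    smul_add, ht]
  rw [add_neg_cancel_right]

theorem wq_bound (w : C(TT, TT)) (q : ℕ) (c t : TT) (ht : q • t = c) {s : Set MM}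
    (hs : MeasurableSet s) :
    dd (sk 0 (wq w q c)) s ≤ dd (sk (-t) 0) s + dd (sk 0 (wq w q 0)) s + dd (sk t 0) s := by
  rw [dd, wq_conj w q c t ht]
  have m1 : MeasurableSet (sk (-t) 0 ⁻¹' s) := (sk (-t) 0).continuous.measurable hs
  have m2 : MeasurableSet (sk 0 (wq w q 0) ⁻¹' s) := (sk 0 (wq w q 0)).continuous.measurable hs
  have m3 : MeasurableSet (sk 0 (wq w q 0) ⁻¹' (sk (-t) 0 ⁻¹' s)) :=
    (sk 0 (wq w q 0)).continuous.measurable m1
  have e1 := dd_tri (sk t 0 ⁻¹' (sk 0 (wq w q 0) ⁻¹' (sk (-t) 0 ⁻¹' s)))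
    (sk t 0 ⁻¹' (sk 0 (wq w q 0) ⁻¹' s)) s
  have e2 := dd_tri (sk t 0 ⁻¹' (sk 0 (wq w q 0) ⁻¹' s)) (sk t 0 ⁻¹' s) s
  rw [mp_symmDiff (sk_mp t 0) m3 m2, mp_symmDiff (sk_mp 0 (wq w q 0)) m1 hs] at e1
  rw [mp_symmDiff (sk_mp t 0) m2 hs] at e2
  calc _ ≤ _ := e1
    _ ≤ dd (sk (-t) 0) s + (dd (sk 0 (wq w q 0)) s + dd (sk t 0) s) := add_le_add le_rfl e2
    _ = _ := by rw [add_assoc]

theorem exists_div (q : ℕ) (hq : q ≠ 0) (x : ℝ) :
    q • (((x / q : ℝ)) : TT) = ((x : ℝ) : TT) := by
  rw [← AddCircle.coe_nsmul, nsmul_eq_mul]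
  congr 1
  have : (q : ℝ) ≠ 0 := by exact_mod_cast hq
  field_simp

theorem averaging {ι : Type*} {l : Filter ι} [l.IsCountablyGenerated] [l.NeBot] {q : ι → ℕ}
    (hq : Tendsto q l atTop) (w : C(TT, TT)) {s : Set MM} (hs : MeasurableSet s)
    (h : Tendsto (fun i => dd (sk 0 (wq w (q i) 0)) s) l (𝓝 0)) :
    ∀ᵐ c : TT, dd (sk 0 (ContinuousMap.const _ (w c))) s = 0 := by
  -- pointwise convergence
  have h1 : ∀ c : TT, Tendsto (fun i => dd (sk 0 (wq w (q i) c)) s) l (𝓝 0) := by
    intro c
    obtain ⟨x, rfl⟩ : ∃ x : ℝ, (x : TT) = c := QuotientAddGroup.mk_surjective c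
    set t : ι → TT := fun i => ((x / (q i : ℝ) : ℝ) : TT) with ht
    have ht0 : Tendsto t l (𝓝 0) := by
      have h2 : Tendsto (fun i => x / (q i : ℝ)) l (𝓝 0) :=
        tendsto_const_nhds.div_atTop (tendsto_natCast_atTop_atTop.comp hq)
      have h3 : Continuous fun y : ℝ => (y : TT) := AddCircle.continuous_mk' 1
      have h4 := (h3.tendsto 0).comp h2
      rw [AddCircle.coe_zero] at h4
      exact h4
    have ht1 : Tendsto (fun i => -t i) l (𝓝 0) := by
      simpa using ht0.neg
    have h5 := ((sk_tendsto_id ht1 (tendsto_const_nhds (x := (0 : C(TT, TT)))) hs).add h).add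
      (sk_tendsto_id ht0 (tendsto_const_nhds (x := (0 : C(TT, TT)))) hs)
    simp only [add_zero] at h5
    refine tendsto_of_tendsto_of_tendsto_of_le_of_le' tendsto_const_nhds h5
      (Eventually.of_forall fun i => zero_le) ?_
    filter_upwards [hq.eventually (eventually_ge_atTop 1)] with i hi
    exact wq_bound w (q i) _ (t i) (exists_div (q i) (by omega) x) hs
  -- dominated convergence
  have h2 : Tendsto (fun i => ∫⁻ c : TT, dd (sk 0 (wq w (q i) c)) s) l (𝓝 (∫⁻ _ : TT, 0)) := by
    refine tendsto_lintegral_filter_of_dominated_convergence (fun _ => 1) ?_ ?_ ?_ ?_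
    · refine Eventually.of_forall fun i => ?_
      have : (fun c : TT => dd (sk 0 (wq w (q i) c)) s) =
          fun c => ∫⁻ u : TT, GG s (u, w (q i • u + c)) := by
        funext c
        rw [dd_sk0 hs]
        rfl
      rw [this]
      refine Measurable.lintegral_prod_right' (f := fun p : TT × TT => GG s (p.2, w (q i • p.2 + p.1))) ?_
      exact (GG_meas hs).comp (measurable_snd.prodMk (w.continuous.measurable.comp
        (((continuous_const_smul (q i)).measurable.comp measurable_snd).add measurable_fst)))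
    · exact Eventually.of_forall fun i => Eventually.of_forall fun c => prob_le_one
    · simp
    · exact Eventually.of_forall fun c => h1 c
  have h3 : ∀ i, ∫⁻ c : TT, dd (sk 0 (wq w (q i) c)) s = ∫⁻ u : TT, ∫⁻ c : TT, GG s (u, w c) := by
    intro i
    have : (fun c : TT => dd (sk 0 (wq w (q i) c)) s) =
        fun c => ∫⁻ u : TT, GG s (u, w (q i • u + c)) := by
      funext c
      rw [dd_sk0 hs]
      rfl
    rw [this]
    exact GG_lint_swap hs w (continuous_const_smul (q i)).measurable
  simp only [h3, lintegral_zero] at h2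
  have h4 : ∫⁻ u : TT, ∫⁻ c : TT, GG s (u, w c) = 0 :=
    tendsto_nhds_unique tendsto_const_nhds h2
  have hm : Measurable fun p : TT × TT => GG s (p.1, w p.2) :=
    (GG_meas hs).comp (measurable_fst.prodMk (w.continuous.measurable.comp measurable_snd))
  rw [lintegral_lintegral_swap hm.aemeasurable] at h4
  have hm2 : Measurable fun c : TT => ∫⁻ u : TT, GG s (u, w c) :=
    Measurable.lintegral_prod_left' (f := fun p : TT × TT => GG s (p.1, w p.2)) hm
  rw [lintegral_eq_zero_iff hm2] at h4
  filter_upwards [h4] with c hc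
  rw [dd_sk0 hs]
  exact hc

theorem dd_const_closed {s : Set MM} (hs : MeasurableSet s) (w : C(TT, TT))
    (h : ∀ᵐ c : TT, dd (sk 0 (ContinuousMap.const _ (w c))) s = 0) (c : TT) :
    dd (sk 0 (ContinuousMap.const _ (w c))) s = 0 := by
  have hd : Dense {c : TT | dd (sk 0 (ContinuousMap.const _ (w c))) s = 0} :=
    MeasureTheory.Measure.dense_of_ae h
  have hc := hd c
  rw [mem_closure_iff_seq_limit] at hc
  obtain ⟨x, hx, hxc⟩ := hc
  have h1 : Tendsto (fun i => ContinuousMap.const TT (w (x i))) atTop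
      (𝓝 (ContinuousMap.const TT (w c))) := by
    have : Continuous fun z : TT => ContinuousMap.const TT (w z) := by
      refine ContinuousMap.continuous_of_continuous_uncurry _ ?_
      exact w.continuous.comp continuous_fst
    exact (this.tendsto c).comp hxc
  have h2 := sk_tendsto (tendsto_const_nhds (x := (0 : TT)) (f := (atTop : Filter ℕ))) h1 hs
  have h3 : ∀ i, dd (sk 0 (ContinuousMap.const _ (w c))) s ≤
      volume ((sk 0 (ContinuousMap.const TT (w (x i))) ⁻¹' s) ∆
        (sk 0 (ContinuousMap.const TT (w c)) ⁻¹' s)) := by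
    intro i
    have e := dd_tri (sk 0 (ContinuousMap.const TT (w c)) ⁻¹' s)
      (sk 0 (ContinuousMap.const TT (w (x i))) ⁻¹' s) s
    rw [dd]
    have e2 : volume ((sk 0 (ContinuousMap.const TT (w (x i))) ⁻¹' s) ∆ s) = 0 := hx i
    rw [e2, add_zero, symmDiff_comm (sk 0 (ContinuousMap.const TT (w c)) ⁻¹' s)
      (sk 0 (ContinuousMap.const TT (w (x i))) ⁻¹' s)] at e
    exact e
  have h4 := ge_of_tendsto h2 (Eventually.of_forall h3)
  exact le_antisymm h4 (zero_le)

/-- If `β` has infinite order and `s` is a.e. invariant under the vertical translation by `β`, then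
a.e. slice of `s` is trivial. -/
theorem slice_triv {s : Set MM} (hs : MeasurableSet s) {β : TT} (hβ : addOrderOf β = 0)
    (h : dd (sk 0 (ContinuousMap.const _ β)) s = 0) :
    ∀ᵐ u : TT, volume (Prod.mk u ⁻¹' s : Set TT) = 0 ∨ volume (Prod.mk u ⁻¹' s : Set TT) = 1 := by
  rw [dd_sk0 hs, lintegral_eq_zero_iff] at h
  · filter_upwards [h] with u hu
    have h1 : (Prod.mk u ⁻¹' s : Set TT) =ᵐ[volume] ((· + β) ⁻¹' (Prod.mk u ⁻¹' s) : Set TT) := by
      rw [← measure_symmDiff_eq_zero_iff]
      rw [symmDiff_comm]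
      have hu' : GG s (u, β) = 0 := hu
      exact hu'
    have hms : MeasurableSet (Prod.mk u ⁻¹' s : Set TT) := measurable_prodMk_left hs
    rcases (AddCircle.ergodic_add_right.2 hβ).quasiErgodic.ae_empty_or_univ₀
      hms.nullMeasurableSet h1.symm with h2 | h2
    · left
      rw [measure_congr h2, measure_empty]
    · right
      rw [measure_congr h2, measure_univ]
  · exact (GG_meas hs).comp (measurable_id.prodMk measurable_const)

theorem erg_of_triv {α β : TT} (hα : addOrderOf α = 0) (hβ : addOrderOf β = 0) (g : C(TT, TT))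
    {s : Set MM} (hs : MeasurableSet s)
    (h : dd (sk 0 (ContinuousMap.const _ β)) s = 0) (hinv : sk α g ⁻¹' s = s) :
    EventuallyConst s (ae volume) := by
  have h1 := slice_triv hs hβ h
  have hm : Measurable fun u : TT => volume (Prod.mk u ⁻¹' s : Set TT) :=
    measurable_measure_prodMk_left hs
  have h2 : ∀ u : TT, volume (Prod.mk (u + α) ⁻¹' s : Set TT) = volume (Prod.mk u ⁻¹' s : Set TT) := by
    intro u
    have e : (Prod.mk u ⁻¹' s : Set TT) = (· + g u) ⁻¹' (Prod.mk (u + α) ⁻¹' s) := by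
      ext v
      conv_lhs => rw [← hinv]
      rfl
    rw [e]
    exact ((measurePreserving_add_right volume (g u)).measure_preimage
      (measurable_prodMk_left hs).nullMeasurableSet).symm
  have hsum : volume s = ∫⁻ u : TT, volume (Prod.mk u ⁻¹' s : Set TT) := Measure.prod_apply hs
  set A : Set TT := {u | volume (Prod.mk u ⁻¹' s : Set TT) = 0} with hA
  have hAm : MeasurableSet A := hm (measurableSet_singleton 0)
  have hAi : (· + α) ⁻¹' A = A := by
    ext u
    simp only [hA, mem_preimage, mem_ofPred_eq, h2]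
  rw [eventuallyConst_set']
  rcases (AddCircle.ergodic_add_right.2 hα).toPreErgodic.ae_empty_or_univ hAm hAi with h3 | h3
  · right
    rw [ae_eq_univ]
    have h4 : ∀ᵐ u : TT, volume (Prod.mk u ⁻¹' s : Set TT) = 1 := by
      have h5 : ∀ᵐ u : TT, u ∉ A := by
        rw [ae_eq_empty] at h3
        exact measure_eq_zero_iff_ae_notMem.1 h3
      filter_upwards [h1, h5] with u hu hu2
      exact hu.resolve_left hu2
    have h6 : volume s = 1 := by
      rw [hsum, lintegral_congr_ae h4, lintegral_const, measure_univ, one_mul]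
    exact (prob_compl_eq_zero_iff hs).2 h6
  · left
    rw [ae_eq_empty, hsum]
    have h5 : ∀ᵐ u : TT, volume (Prod.mk u ⁻¹' s : Set TT) = 0 := by
      have : ∀ᵐ u : TT, u ∈ A := by
        rw [ae_eq_univ] at h3
        exact measure_eq_zero_iff_ae_notMem.1 h3 |>.mono fun u hu => not_not.1 hu
      exact this
    rw [lintegral_congr_ae h5, lintegral_zero]

/-- A set which is not vertically trivial. -/
theorem exists_J : ∃ J : Set TT, MeasurableSet J ∧ volume J ≠ 0 ∧ volume J ≠ 1 := by
  refine ⟨Metric.closedBall 0 (1 / 4), Metric.isClosed_closedBall.measurableSet, ?_, ?_⟩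
  · rw [AddCircle.volume_closedBall]
    simp
  · rw [AddCircle.volume_closedBall]
    intro h
    have h2 : min (1 : ℝ) (2 * (1 / 4)) = 1 := by
      have := congrArg ENNReal.toReal h
      rw [ENNReal.toReal_ofReal (by positivity)] at this
      simpa using this
    norm_num at h2

theorem not_vert {β : TT} (hβ : addOrderOf β = 0) {J : Set TT} (hJ : MeasurableSet J)
    (h0 : volume J ≠ 0) (h1 : volume J ≠ 1) :
    dd (sk 0 (ContinuousMap.const _ β)) ((univ : Set TT) ×ˢ J) ≠ 0 := by
  intro h
  have h2 := slice_triv (MeasurableSet.univ.prod hJ) hβ h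
  obtain ⟨u, hu⟩ := h2.exists
  have e : (Prod.mk u ⁻¹' ((univ : Set TT) ×ˢ J) : Set TT) = J := by
    ext v
    simp
  rw [e] at hu
  exact hu.elim h0 h1

end Pool.Agent.R327.SE
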