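import Pool.Agent.R327.SE.Sk

/-!
# Liouville frequencies
-/

set_option autoImplicit false

open MeasureTheory Filter Topology Set
open scoped Nat

namespace Pool.Agent.R327.SE

/-- the frequencies -/
def QQ (k : ℕ) : ℕ := 2 ^ (k + 3)!

/-- the rotation number -/
noncomputable def al : ℝ := liouvilleNumber 2

/-- the remainders -/
noncomputable def rr (k : ℕ) : ℝ := LiouvilleNumber.remainder 2 (k + 3)

theorem QQ_pos (k : ℕ) : 0 < QQ k := by unfold QQ; positivity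

theorem QQ_posR (k : ℕ) : (0 : ℝ) < QQ k := by exact_mod_cast QQ_pos k

theorem QQ_succ (k : ℕ) : QQ (k + 1) = QQ k ^ (k + 4) := by
  unfold QQ
  rw [← pow_mul, Nat.factorial_succ (k + 3), mul_comm]

theorem QQ_ge (k : ℕ) : 2 ^ k ≤ QQ k := by
  unfold QQ
  exact Nat.pow_le_pow_right (by norm_num) ((Nat.le_add_right k 3).trans (Nat.self_le_factorial _))

theorem QQ_one_le (k : ℕ) : 1 ≤ QQ k := QQ_pos k

theorem QQ_mono : Monotone QQ := by
  intro a b h
  unfold QQ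
  exact Nat.pow_le_pow_right (by norm_num) (Nat.factorial_le (by omega))

theorem QQ_tendsto : Tendsto QQ atTop atTop := by
  refine tendsto_atTop_mono (fun k => ?_) tendsto_id
  exact (Nat.lt_two_pow_self (n := k)).le.trans (QQ_ge k)

theorem rr_pos (k : ℕ) : 0 < rr k := LiouvilleNumber.remainder_pos (by norm_num) _

theorem rr_le (k : ℕ) : rr k ≤ 2 / QQ (k + 1) := by
  have h := LiouvilleNumber.remainder_lt' (k + 3) (m := 2) (by norm_num)
  have e : ((1 : ℝ) - 1 / 2)⁻¹ * (1 / 2 ^ (k + 3 + 1)!) = 2 / QQ (k + 1) := by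
    unfold QQ
    push_cast
    have : k + 1 + 3 = k + 3 + 1 := by ring
    rw [this]
    norm_num
    ring
  rw [e] at h
  exact h.le

theorem al_eq (k : ℕ) : ∃ p : ℕ, al = p / QQ k + rr k := by
  obtain ⟨p, hp⟩ := LiouvilleNumber.partialSum_eq_rat (m := 2) (by norm_num) (k + 3)
  refine ⟨p, ?_⟩
  have h := LiouvilleNumber.partialSum_add_remainder (m := 2) (by norm_num) (k + 3)
  unfold al rr QQ
  rw [← h]
  congr 1

theorem rr_succ (k : ℕ) : rr k = 1 / QQ (k + 1) + rr (k + 1) := by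
  have h1 := LiouvilleNumber.partialSum_add_remainder (m := 2) (by norm_num) (k + 3)
  have h2 := LiouvilleNumber.partialSum_add_remainder (m := 2) (by norm_num) (k + 3 + 1)
  rw [LiouvilleNumber.partialSum_succ] at h2
  unfold rr QQ
  have e : k + 1 + 3 = k + 3 + 1 := by ring
  rw [e]
  push_cast
  linarith

theorem al_irr : Irrational al := by
  have h : Liouville al := by
    have := liouville_liouvilleNumber (m := 2) le_rfl
    unfold al
    exact_mod_cast this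
  exact h.irrational

theorem addOrder_irr {x : ℝ} (hx : Irrational x) : addOrderOf (x : TT) = 0 := by
  by_contra h
  have hn : 0 < addOrderOf (x : TT) := Nat.pos_of_ne_zero h
  have h1 := addOrderOf_nsmul_eq_zero (x : TT)
  rw [← AddCircle.coe_nsmul, AddCircle.coe_eq_zero_iff] at h1
  obtain ⟨m, hm⟩ := h1
  rw [nsmul_eq_mul, zsmul_eq_mul, mul_one] at hm
  refine hx ⟨(m : ℚ) / (addOrderOf (x : TT) : ℚ), ?_⟩
  push_cast
  have : (addOrderOf (x : TT) : ℝ) ≠ 0 := by exact_mod_cast h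
  rw [hm]
  field_simp

/-- all the relevant series converge -/
theorem summ (n : ℕ) : Summable (fun k => (QQ k : ℝ) ^ n * rr k) := by
  have h2 : Summable (fun k : ℕ => 2 * (1 / 2 : ℝ) ^ k) :=
    (summable_geometric_of_lt_one (by norm_num) (by norm_num)).mul_left 2
  refine Summable.of_norm_bounded_eventually_nat h2 ?_
  filter_upwards [eventually_ge_atTop n] with k hk
  rw [Real.norm_of_nonneg (by have := rr_pos k; positivity)]
  have h3 : (QQ k : ℝ) ^ n * rr k ≤ (QQ k : ℝ) ^ n * (2 / QQ (k + 1)) :=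
    mul_le_mul_of_nonneg_left (rr_le k) (by positivity)
  refine h3.trans ?_
  have hq := QQ_posR k
  have h1 : (1 : ℝ) ≤ QQ k := by exact_mod_cast QQ_one_le k
  rw [QQ_succ]
  push_cast
  have e : (QQ k : ℝ) ^ (k + 4) = QQ k ^ n * (QQ k ^ (k - n) * QQ k ^ 4) := by
    rw [← pow_add, ← pow_add]
    congr 1
    omega
  rw [e]
  have h4 : (QQ k : ℝ) ^ n * (2 / (QQ k ^ n * (QQ k ^ (k - n) * QQ k ^ 4))) =
      2 / (QQ k ^ (k - n) * QQ k ^ 4) := by
    field_simp
  rw [h4]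
  have h5 : (2 : ℝ) ^ k ≤ QQ k ^ (k - n) * QQ k ^ 4 := by
    have a1 : (2 : ℝ) ^ k ≤ QQ k := by exact_mod_cast QQ_ge k
    have a2 : (QQ k : ℝ) ≤ QQ k ^ 4 := le_self_pow₀ h1 (by norm_num)
    have a3 : (1 : ℝ) ≤ QQ k ^ (k - n) := one_le_pow₀ h1
    calc (2 : ℝ) ^ k ≤ QQ k ^ 4 := a1.trans a2
      _ = 1 * QQ k ^ 4 := by ring
      _ ≤ _ := mul_le_mul_of_nonneg_right a3 (by positivity)
  calc (2 : ℝ) / (QQ k ^ (k - n) * QQ k ^ 4) ≤ 2 / 2 ^ k :=
        div_le_div_of_nonneg_left (by norm_num) (by positivity) h5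
    _ = _ := by rw [one_div, inv_pow]; ring

/-- the times -/
def NN (m : ℕ) : ℕ := 2 ^ ((m + 4)! - (m + 3)! - 1)

theorem fac_ge (m : ℕ) : 2 * (m + 3)! + 1 ≤ (m + 4)! := by
  rw [Nat.factorial_succ (m + 3)]
  have : 1 ≤ (m + 3)! := Nat.factorial_pos _
  nlinarith

theorem NN_spec (m : ℕ) : 2 * QQ m * NN m = QQ (m + 1) := by
  unfold QQ NN
  have := fac_ge m
  rw [← pow_succ', ← pow_add]
  congr 1
  have e : m + 1 + 3 = m + 4 := by ring
  rw [e]
  omega

theorem NN_dvd (m : ℕ) : QQ m ∣ NN m := by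
  unfold QQ NN
  have := fac_ge m
  exact pow_dvd_pow 2 (by omega)

theorem NN_le (m : ℕ) : NN m ≤ QQ (m + 1) := by
  rw [← NN_spec]
  have := QQ_pos m
  nlinarith [Nat.zero_le (NN m)]

/-- `N_m r_m ≤ 1 / q_m` -/
theorem NN_rr (m : ℕ) : (NN m : ℝ) * rr m ≤ 1 / QQ m := by
  have h1 := rr_le m
  have h2 : (2 : ℝ) * QQ m * NN m = QQ (m + 1) := by exact_mod_cast NN_spec m
  have hq := QQ_posR m
  have hq1 := QQ_posR (m + 1)
  calc (NN m : ℝ) * rr m ≤ NN m * (2 / QQ (m + 1)) := mul_le_mul_of_nonneg_left h1 (by positivity)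
    _ = 1 / QQ m := by
      rw [← h2] at hq1 ⊢
      have : (NN m : ℝ) ≠ 0 := by
        intro h
        rw [h, mul_zero] at hq1
        exact lt_irrefl _ hq1
      field_simp

/-- `q_m N_m r_m = 1/2 + q_{m+1} r_{m+1} / 2` -/
theorem NN_half (m : ℕ) : (QQ m : ℝ) * NN m * rr m = 1 / 2 + QQ (m + 1) * rr (m + 1) / 2 := by
  have h2 : (2 : ℝ) * QQ m * NN m = QQ (m + 1) := by exact_mod_cast NN_spec m
  have hq1 := QQ_posR (m + 1)
  have h3 : (QQ m : ℝ) * NN m = QQ (m + 1) / 2 := by linarith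
  rw [h3, rr_succ m]
  field_simp

/-- `N_m α → 0` in the circle -/
theorem NN_al (m : ℕ) : ((((NN m : ℕ) : ℝ) * al : ℝ) : TT) = (((NN m : ℝ) * rr m : ℝ) : TT) := by
  obtain ⟨p, hp⟩ := al_eq m
  obtain ⟨d, hd⟩ := NN_dvd m
  have hq := QQ_posR m
  have e : ((NN m : ℕ) : ℝ) * al = ((d * p : ℕ) : ℝ) + (NN m : ℝ) * rr m := by
    rw [hp, mul_add]
    congr 1
    rw [hd]
    push_cast
    field_simp
  rw [e, AddCircle.coe_add]
  have h3 : ((((d * p : ℕ) : ℝ) : ℝ) : TT) = 0 := by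
    rw [AddCircle.coe_eq_zero_iff]
    exact ⟨(d * p : ℕ), by simp⟩
  rw [h3, zero_add]

end Pool.Agent.R327.SE
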