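import Pool.Agent.R327.SE.Num

/-!
# The cocycles
-/

set_option autoImplicit false

open MeasureTheory Filter Topology Set
open scoped Nat Real ContDiff

namespace Pool.Agent.R327.SE

/-- `cos (2 π q_k x)` -/
noncomputable def cosk (k : ℕ) (x : ℝ) : ℝ := Real.cos (2 * π * QQ k * x)

theorem cosk_per (k : ℕ) (x : ℝ) : cosk k (x + 1) = cosk k x := by
  unfold cosk
  have : 2 * π * QQ k * (x + 1) = 2 * π * QQ k * x + (QQ k : ℕ) * (2 * π) := by ring
  rw [this, Real.cos_add_nat_mul_two_pi]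

theorem cosk_cont (k : ℕ) : Continuous (cosk k) := by
  unfold cosk
  fun_prop

theorem cosk_le (k : ℕ) (x : ℝ) : |cosk k x| ≤ 1 := Real.abs_cos_le_one _

theorem cosk_shift (k : ℕ) (x t r : ℝ) (p : ℕ) (h : (QQ k : ℝ) * t = p + r) :
    cosk k (x + t) = Real.cos (2 * π * QQ k * x + 2 * π * r) := by
  unfold cosk
  have : 2 * π * QQ k * (x + t) = 2 * π * QQ k * x + 2 * π * r + (p : ℕ) * (2 * π) := by
    have : 2 * π * QQ k * (x + t) = 2 * π * QQ k * x + 2 * π * (QQ k * t) := by ring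
    rw [this, h]
    ring
  rw [this, Real.cos_add_nat_mul_two_pi]

/-- the difference -/
noncomputable def DD (k N : ℕ) (x : ℝ) : ℝ := cosk k (x + N * al) - cosk k x

theorem DD_per (k N : ℕ) (x : ℝ) : DD k N (x + 1) = DD k N x := by
  unfold DD
  rw [cosk_per, show x + 1 + N * al = x + N * al + 1 by ring, cosk_per]

theorem DD_cont (k N : ℕ) : Continuous (DD k N) := by
  unfold DD
  exact ((cosk_cont k).comp (continuous_id.add continuous_const)).sub (cosk_cont k)

theorem shift_bound (k : ℕ) (x t r : ℝ) (p : ℕ) (h : (QQ k : ℝ) * t = p + r) (hr : 0 ≤ r) :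
    |cosk k (x + t) - cosk k x| ≤ 2 * π * r := by
  rw [cosk_shift k x t r p h]
  refine (Real.abs_cos_sub_cos_le _ _).trans ?_
  rw [add_sub_cancel_left, abs_of_nonneg (by positivity)]

theorem DD_bound (k N : ℕ) (x : ℝ) : |DD k N x| ≤ 2 * π * (N * (QQ k * rr k)) := by
  obtain ⟨p, hp⟩ := al_eq k
  have hq := QQ_posR k
  have hr := rr_pos k
  refine shift_bound k x _ _ (N * p) ?_ (by positivity)
  rw [hp]
  push_cast
  field_simp

theorem NN_al_real (m : ℕ) : ∃ c : ℕ, (NN m : ℝ) * al = c + NN m * rr m := by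
  obtain ⟨p, hp⟩ := al_eq m
  obtain ⟨d, hd⟩ := NN_dvd m
  have hq := QQ_posR m
  refine ⟨d * p, ?_⟩
  rw [hp, mul_add]
  congr 1
  rw [hd]
  push_cast
  field_simp

theorem DD_lt (k m : ℕ) (x : ℝ) : |DD k (NN m) x| ≤ 2 * π * (QQ k / QQ m) := by
  obtain ⟨c, hc⟩ := NN_al_real m
  have hr := rr_pos m
  have h1 : |DD k (NN m) x| ≤ 2 * π * (QQ k * (NN m * rr m)) := by
    refine shift_bound k x _ _ (QQ k * c) ?_ (by positivity)
    rw [hc]
    push_cast
    ring
  refine h1.trans ?_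
  have h2 := NN_rr m
  have hq := QQ_posR k
  have h3 : (QQ k : ℝ) * (NN m * rr m) ≤ QQ k * (1 / QQ m) := mul_le_mul_of_nonneg_left h2 hq.le
  have h4 : (QQ k : ℝ) * (1 / QQ m) = QQ k / QQ m := by ring
  rw [h4] at h3
  exact mul_le_mul_of_nonneg_left h3 (by positivity)

theorem DD_eq (m : ℕ) (x : ℝ) : |DD m (NN m) x + 2 * cosk m x| ≤ π * (QQ (m + 1) * rr (m + 1)) := by
  obtain ⟨c, hc⟩ := NN_al_real m
  have h1 : cosk m (x + NN m * al) =
      Real.cos (2 * π * QQ m * x + 2 * π * (QQ m * NN m * rr m)) := by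
    refine cosk_shift m x _ _ (QQ m * c) ?_
    rw [hc]
    push_cast
    ring
  rw [NN_half] at h1
  have h2 : 2 * π * QQ m * x + 2 * π * (1 / 2 + QQ (m + 1) * rr (m + 1) / 2) =
      2 * π * QQ m * x + π * (QQ (m + 1) * rr (m + 1)) + π := by ring
  rw [h2, Real.cos_add_pi] at h1
  have h3 : DD m (NN m) x + 2 * cosk m x = -(Real.cos (2 * π * QQ m * x + π * (QQ (m + 1) * rr (m + 1)))
      - cosk m x) := by
    unfold DD
    rw [h1]
    ring
  rw [h3, abs_neg, cosk]
  refine (Real.abs_cos_sub_cos_le _ _).trans ?_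
  have hr := rr_pos (m + 1)
  rw [add_sub_cancel_left, abs_of_nonneg (by positivity)]

theorem DD_gt {k m : ℕ} (h : m < k) (x : ℝ) : |DD k (NN m) x| ≤ 2 * π * (QQ k ^ 2 * rr k) := by
  refine (DD_bound k (NN m) x).trans ?_
  have h1 : (NN m : ℝ) ≤ QQ k := by exact_mod_cast (NN_le m).trans (QQ_mono h)
  have hr := rr_pos k
  have hq := QQ_posR k
  have h2 : (NN m : ℝ) * (QQ k * rr k) ≤ QQ k * (QQ k * rr k) :=
    mul_le_mul_of_nonneg_right h1 (by positivity)
  have h3 : (QQ k : ℝ) * (QQ k * rr k) = QQ k ^ 2 * rr k := by ring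
  rw [h3] at h2
  exact mul_le_mul_of_nonneg_left h2 (by positivity)

/-! ### error bound -/

noncomputable def ee (m k : ℕ) : ℝ :=
  if k < m then 2 * π * (QQ k / QQ m) else if k = m then π * (QQ (m + 1) * rr (m + 1)) else
    2 * π * (QQ k ^ 2 * rr k)

noncomputable def BB (k : ℕ) : ℝ :=
  2 * π * (QQ k ^ 1 * rr k) + π * (QQ (k + 1) ^ 1 * rr (k + 1)) + 2 * π * (QQ k ^ 2 * rr k)

theorem BB_summable : Summable BB := by
  unfold BB
  have h1 := (summ 1).mul_left (2 * π)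
  have h2 := ((summable_nat_add_iff 1).2 (summ 1)).mul_left π
  have h3 := (summ 2).mul_left (2 * π)
  exact (h1.add h2).add h3

theorem ee_nonneg (m k : ℕ) : 0 ≤ ee m k := by
  unfold ee
  have h1 := rr_pos (m + 1)
  have h2 := rr_pos k
  split_ifs <;> positivity

theorem ee_le (m k : ℕ) : ee m k ≤ BB k := by
  have h1 := rr_pos (m + 1)
  have h2 := rr_pos k
  have h3 := rr_pos (k + 1)
  have q1 := QQ_posR k
  have q2 := QQ_posR (k + 1)
  unfold ee BB
  split_ifs with c1 c2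
  · have e1 : (QQ k : ℝ) / QQ m ≤ QQ k ^ 1 * rr k := by
      have e2 : (1 : ℝ) / QQ (k + 1) ≤ rr k := by rw [rr_succ k]; linarith
      have e3 : (QQ (k + 1) : ℝ) ≤ QQ m := by exact_mod_cast QQ_mono c1
      calc (QQ k : ℝ) / QQ m ≤ QQ k / QQ (k + 1) := div_le_div_of_nonneg_left q1.le q2 e3
        _ = QQ k * (1 / QQ (k + 1)) := by ring
        _ ≤ QQ k * rr k := mul_le_mul_of_nonneg_left e2 q1.le
        _ = _ := by ring
    have e4 : 2 * π * ((QQ k : ℝ) / QQ m) ≤ 2 * π * (QQ k ^ 1 * rr k) :=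
      mul_le_mul_of_nonneg_left e1 (by positivity)
    have e5 : 0 ≤ π * ((QQ (k + 1) : ℝ) ^ 1 * rr (k + 1)) := by positivity
    have e6 : 0 ≤ 2 * π * ((QQ k : ℝ) ^ 2 * rr k) := by positivity
    linarith
  · subst c2
    have e5 : 0 ≤ 2 * π * ((QQ k : ℝ) ^ 1 * rr k) := by positivity
    have e6 : 0 ≤ 2 * π * ((QQ k : ℝ) ^ 2 * rr k) := by positivity
    rw [pow_one]
    rw [pow_one] at e5
    linarith
  · have e5 : 0 ≤ π * ((QQ (k + 1) : ℝ) ^ 1 * rr (k + 1)) := by positivity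
    have e6 : 0 ≤ 2 * π * ((QQ k : ℝ) ^ 1 * rr k) := by positivity
    linarith

theorem ee_summable (m : ℕ) : Summable (ee m) :=
  Summable.of_nonneg_of_le (ee_nonneg m) (ee_le m) BB_summable

theorem ee_tendsto (k : ℕ) : Tendsto (fun m => ee m k) atTop (𝓝 0) := by
  have h1 : Tendsto (fun m => 2 * π * ((QQ k : ℝ) / QQ m)) atTop (𝓝 (2 * π * 0)) := by
    refine Tendsto.const_mul _ ?_
    exact tendsto_const_nhds.div_atTop (tendsto_natCast_atTop_atTop.comp QQ_tendsto)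
  rw [mul_zero] at h1
  refine h1.congr' ?_
  filter_upwards [eventually_gt_atTop k] with m hm
  rw [ee, if_pos hm]

/-- the error -/
noncomputable def eps (m : ℕ) : ℝ := ∑' k, ee m k

theorem eps_tendsto : Tendsto eps atTop (𝓝 0) := by
  have h := tendsto_tsum_of_dominated_convergence (f := ee) (g := fun _ => (0 : ℝ)) BB_summable
    ee_tendsto (Eventually.of_forall fun m k => by
      rw [Real.norm_of_nonneg (ee_nonneg m k)]
      exact ee_le m k)
  rw [tsum_zero] at h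
  exact h

/-! ### the cocycle -/

/-- admissible weights -/
def Adm (θ : ℕ → ℝ) : Prop := ∀ k, 0 ≤ θ k ∧ θ k ≤ 1

noncomputable def ph (θ : ℕ → ℝ) (N : ℕ) (x : ℝ) : ℝ := ∑' k, θ k * DD k N x

theorem adm_abs {θ : ℕ → ℝ} (hθ : Adm θ) (k : ℕ) : |θ k| ≤ 1 :=
  abs_le.2 ⟨by linarith [(hθ k).1], (hθ k).2⟩

theorem term_le {θ : ℕ → ℝ} (hθ : Adm θ) (k N : ℕ) (x : ℝ) :
    ‖θ k * DD k N x‖ ≤ 2 * π * (N * (QQ k ^ 1 * rr k)) := by
  rw [norm_mul, pow_one]
  have h1 : ‖θ k‖ ≤ 1 := adm_abs hθ k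
  have h2 : ‖DD k N x‖ ≤ 2 * π * (N * (QQ k * rr k)) := DD_bound k N x
  calc _ ≤ 1 * ‖DD k N x‖ := mul_le_mul_of_nonneg_right h1 (norm_nonneg _)
    _ ≤ _ := by rw [one_mul]; exact h2

theorem bnd_summable (N : ℕ) : Summable fun k => 2 * π * (N * ((QQ k : ℝ) ^ 1 * rr k)) :=
  ((summ 1).mul_left (N : ℝ)).mul_left (2 * π)

theorem ph_summable {θ : ℕ → ℝ} (hθ : Adm θ) (N : ℕ) (x : ℝ) :
    Summable fun k => θ k * DD k N x :=
  Summable.of_norm_bounded (bnd_summable N) fun k => term_le hθ k N x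

theorem ph_cont {θ : ℕ → ℝ} (hθ : Adm θ) (N : ℕ) : Continuous (ph θ N) :=
  continuous_tsum (fun k => continuous_const.mul (DD_cont k N)) (bnd_summable N)
    fun k x => term_le hθ k N x

theorem ph_per (θ : ℕ → ℝ) (N : ℕ) (x : ℝ) : ph θ N (x + 1) = ph θ N x := by
  unfold ph
  simp only [DD_per]

theorem ph_zero (θ : ℕ → ℝ) (x : ℝ) : ph θ 0 x = 0 := by
  unfold ph DD
  simp

theorem ph_succ {θ : ℕ → ℝ} (hθ : Adm θ) (N : ℕ) (x : ℝ) :
    ph θ (N + 1) x = ph θ N x + ph θ 1 (x + N * al) := by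
  unfold ph
  rw [← (ph_summable hθ N x).tsum_add (ph_summable hθ 1 (x + N * al))]
  refine tsum_congr fun k => ?_
  unfold DD
  have : x + ((N + 1 : ℕ) : ℝ) * al = x + N * al + ((1 : ℕ) : ℝ) * al := by push_cast; ring
  rw [this]
  ring

theorem ph_key {θ : ℕ → ℝ} (hθ : Adm θ) (m : ℕ) (x : ℝ) :
    |ph θ (NN m) x + 2 * (θ m * cosk m x)| ≤ eps m := by
  have h1 : ph θ (NN m) x + 2 * (θ m * cosk m x) =
      ∑' k, (θ k * DD k (NN m) x + if k = m then 2 * (θ m * cosk m x) else 0) := by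
    rw [Summable.tsum_add (ph_summable hθ (NN m) x) ((hasSum_ite_eq m _).summable), tsum_ite_eq]
    rfl
  rw [h1]
  have h2 : ∀ k, ‖θ k * DD k (NN m) x + if k = m then 2 * (θ m * cosk m x) else 0‖ ≤ ee m k := by
    intro k
    have ht := adm_abs hθ k
    rw [ee]
    split_ifs with c1 c2 c3
    · omega
    · subst c1
      have : θ k * DD k (NN k) x + 2 * (θ k * cosk k x) = θ k * (DD k (NN k) x + 2 * cosk k x) := by
        ring
      rw [this, norm_mul]
      calc _ ≤ 1 * ‖DD k (NN k) x + 2 * cosk k x‖ := mul_le_mul_of_nonneg_right ht (norm_nonneg _)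
        _ ≤ _ := by rw [one_mul]; exact DD_eq k x
    · rw [add_zero, norm_mul]
      calc _ ≤ 1 * ‖DD k (NN m) x‖ := mul_le_mul_of_nonneg_right ht (norm_nonneg _)
        _ ≤ _ := by rw [one_mul]; exact DD_lt k m x
    · rw [add_zero, norm_mul]
      calc _ ≤ 1 * ‖DD k (NN m) x‖ := mul_le_mul_of_nonneg_right ht (norm_nonneg _)
        _ ≤ _ := by rw [one_mul]; exact DD_gt (by omega) x
  exact tsum_of_norm_bounded (ee_summable m).hasSum h2

/-! ### smoothness -/

theorem iter_DD (A B : ℝ) (n : ℕ) :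
    iteratedDeriv n (fun x : ℝ => Real.cos (A * x + B) - Real.cos (A * x)) =
      fun x => A ^ n * (Real.cos (A * x + B + n * (π / 2)) - Real.cos (A * x + n * (π / 2))) := by
  induction n with
  | zero =>
    funext x
    simp
  | succ n ih =>
    rw [iteratedDeriv_succ, ih]
    funext x
    have h1 : HasDerivAt (fun x : ℝ => Real.cos (A * x + B + n * (π / 2)))
        (-Real.sin (A * x + B + n * (π / 2)) * A) x := by
      have h2 : HasDerivAt (fun x : ℝ => A * x + B + n * (π / 2)) A x := by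
        simpa using (((hasDerivAt_id x).const_mul A).add_const B).add_const (n * (π / 2))
      exact (Real.hasDerivAt_cos _).comp x h2
    have h3 : HasDerivAt (fun x : ℝ => Real.cos (A * x + n * (π / 2)))
        (-Real.sin (A * x + n * (π / 2)) * A) x := by
      have h2 : HasDerivAt (fun x : ℝ => A * x + n * (π / 2)) A x := by
        simpa using ((hasDerivAt_id x).const_mul A).add_const (n * (π / 2))
      exact (Real.hasDerivAt_cos _).comp x h2
    have h4 : HasDerivAt (fun x : ℝ => A ^ n * (Real.cos (A * x + B + n * (π / 2)) -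
        Real.cos (A * x + n * (π / 2)))) (A ^ n * (-Real.sin (A * x + B + n * (π / 2)) * A -
        -Real.sin (A * x + n * (π / 2)) * A)) x := (h1.sub h3).const_mul (A ^ n)
    rw [h4.deriv]
    have e1 : A * x + B + ((n + 1 : ℕ) : ℝ) * (π / 2) = A * x + B + n * (π / 2) + π / 2 := by
      push_cast; ring
    have e2 : A * x + ((n + 1 : ℕ) : ℝ) * (π / 2) = A * x + n * (π / 2) + π / 2 := by
      push_cast; ring
    rw [e1, e2, Real.cos_add_pi_div_two, Real.cos_add_pi_div_two, pow_succ]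
    ring

theorem DD_one (k : ℕ) (x : ℝ) : DD k 1 x =
    Real.cos (2 * π * QQ k * x + 2 * π * (QQ k * rr k)) - Real.cos (2 * π * QQ k * x) := by
  obtain ⟨p, hp⟩ := al_eq k
  have hq := QQ_posR k
  unfold DD
  rw [cosk_shift k x _ (QQ k * rr k) p]
  · rfl
  · rw [hp]
    push_cast
    field_simp

theorem DD_smooth (k : ℕ) : ContDiff ℝ ∞ (DD k 1) := by
  have : DD k 1 = fun x => Real.cos (2 * π * QQ k * x + 2 * π * (QQ k * rr k)) -
      Real.cos (2 * π * QQ k * x) := funext (DD_one k)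
  rw [this]
  fun_prop

theorem DD_iter_le (n k : ℕ) (x : ℝ) :
    ‖iteratedFDeriv ℝ n (DD k 1) x‖ ≤ (2 * π) ^ (n + 1) * (QQ k ^ (n + 1) * rr k) := by
  have : DD k 1 = fun x => Real.cos (2 * π * QQ k * x + 2 * π * (QQ k * rr k)) -
      Real.cos (2 * π * QQ k * x) := funext (DD_one k)
  rw [this, norm_iteratedFDeriv_eq_norm_iteratedDeriv, iter_DD, norm_mul, norm_pow]
  have hq := QQ_posR k
  have hr := rr_pos k
  rw [Real.norm_of_nonneg (by positivity : (0 : ℝ) ≤ 2 * π * QQ k)]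
  have h1 : ‖Real.cos (2 * π * QQ k * x + 2 * π * (QQ k * rr k) + n * (π / 2)) -
      Real.cos (2 * π * QQ k * x + n * (π / 2))‖ ≤ 2 * π * (QQ k * rr k) := by
    refine (Real.abs_cos_sub_cos_le _ _).trans ?_
    have : 2 * π * QQ k * x + 2 * π * (QQ k * rr k) + n * (π / 2) -
      (2 * π * QQ k * x + n * (π / 2)) = 2 * π * (QQ k * rr k) := by ring
    rw [this, abs_of_nonneg (by positivity)]
  calc _ ≤ (2 * π * QQ k) ^ n * (2 * π * (QQ k * rr k)) :=
        mul_le_mul_of_nonneg_left h1 (by positivity)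
    _ = _ := by ring

theorem ph_smooth {θ : ℕ → ℝ} (hθ : Adm θ) : ContDiff ℝ ∞ (ph θ 1) := by
  unfold ph
  have h := contDiff_tsum (𝕜 := ℝ) (N := ⊤) (f := fun (k : ℕ) (x : ℝ) => θ k * DD k 1 x)
    (v := fun n k => (2 * π) ^ (n + 1) * (QQ k ^ (n + 1) * rr k))
    (fun k => contDiff_const.mul (DD_smooth k)) (fun n _ => (summ (n + 1)).mul_left _) ?_
  · exact h
  · intro n k x _
    have h1 : iteratedFDeriv ℝ n (fun x => θ k * DD k 1 x) x = θ k • iteratedFDeriv ℝ n (DD k 1) x := by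
      have := iteratedFDeriv_const_smul_apply (𝕜 := ℝ) (a := θ k) (i := n) (x := x) (f := DD k 1)
        (((DD_smooth k).of_le (by exact_mod_cast le_top)).contDiffAt)
      exact this
    rw [h1, norm_smul]
    calc _ ≤ 1 * ‖iteratedFDeriv ℝ n (DD k 1) x‖ :=
          mul_le_mul_of_nonneg_right (adm_abs hθ k) (norm_nonneg _)
      _ ≤ _ := by rw [one_mul]; exact DD_iter_le n k x

end Pool.Agent.R327.SE
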