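import Mathlib

/-!
# Skew products over rotations of the circle
-/

set_option autoImplicit false

open MeasureTheory Filter Topology Set
open scoped symmDiff ENNReal

namespace Pool.Agent.R327.SE

/-- the circle -/
abbrev TT : Type := AddCircle (1 : ℝ)

/-- the torus, with the normalized Haar measure `volume` -/
abbrev MM : Type := TT × TT

instance : IsProbabilityMeasure (volume : Measure TT) :=
  ⟨by simp⟩

/-- `(u, v) ↦ (u + a, v + g u)` -/
def sk (a : TT) (g : C(TT, TT)) : C(MM, MM) where
  toFun p := (p.1 + a, p.2 + g p.1)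
  continuous_toFun := (continuous_fst.add continuous_const).prodMk
    (continuous_snd.add (g.continuous.comp continuous_fst))

theorem sk_apply (a : TT) (g : C(TT, TT)) (p : MM) : sk a g p = (p.1 + a, p.2 + g p.1) := rfl

theorem sk_cont : Continuous (fun p : TT × C(TT, TT) => sk p.1 p.2) := by
  refine ContinuousMap.continuous_of_continuous_uncurry _ ?_
  have h1 : Continuous fun q : (TT × C(TT, TT)) × MM => q.1.2 q.2.1 :=
    (continuous_snd.comp continuous_fst).eval (continuous_fst.comp continuous_snd)
  exact ((continuous_fst.comp continuous_snd).add (continuous_fst.comp continuous_fst)).prodMk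
    ((continuous_snd.comp continuous_snd).add h1)

theorem sk_mp (a : TT) (g : C(TT, TT)) : MeasurePreserving (sk a g) := by
  have h1 : MeasurePreserving (fun u : TT => u + a) := measurePreserving_add_right volume a
  have h := h1.skew_product (μc := (volume : Measure TT)) (μd := (volume : Measure TT))
    (g := fun u v => v + g u)
    (by
      have : Continuous (Function.uncurry fun (u v : TT) => v + g u) := by
        refine continuous_snd.add (g.continuous.comp continuous_fst)
      exact this.measurable)
    (Eventually.of_forall fun u => (measurePreserving_add_right volume (g u)).map_eq)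
  exact h

/-- the measure of `f⁻¹ s Δ s` -/
noncomputable def dd (f : MM → MM) (s : Set MM) : ℝ≥0∞ := volume ((f ⁻¹' s) ∆ s)

theorem sk_tendsto {ι : Type*} {l : Filter ι} {a : ι → TT} {g : ι → C(TT, TT)} {a₀ : TT}
    {g₀ : C(TT, TT)} (ha : Tendsto a l (𝓝 a₀)) (hg : Tendsto g l (𝓝 g₀)) {s : Set MM}
    (hs : MeasurableSet s) :
    Tendsto (fun i => volume ((sk (a i) (g i) ⁻¹' s) ∆ (sk a₀ g₀ ⁻¹' s))) l (𝓝 0) := by
  refine tendsto_measure_symmDiff_preimage_nhds_zero (ν := (volume : Measure MM)) ?_
    (Eventually.of_forall fun i => sk_mp _ _) (sk_mp _ _) hs.nullMeasurableSet (measure_ne_top _ _)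
  exact (sk_cont.tendsto (a₀, g₀)).comp (ha.prodMk_nhds hg)

theorem sk_zero (p : MM) : sk 0 0 p = p := by
  simp [sk_apply]

theorem sk_tendsto_id {ι : Type*} {l : Filter ι} {a : ι → TT} {g : ι → C(TT, TT)}
    (ha : Tendsto a l (𝓝 0)) (hg : Tendsto g l (𝓝 0)) {s : Set MM}
    (hs : MeasurableSet s) :
    Tendsto (fun i => dd (sk (a i) (g i)) s) l (𝓝 0) := by
  have h := sk_tendsto ha hg hs
  have h2 : sk 0 0 ⁻¹' s = s := by
    ext p
    simp [sk_zero]
  rw [h2] at h
  exact h

theorem dd_tri (s t r : Set MM) : volume (s ∆ r) ≤ volume (s ∆ t) + volume (t ∆ r) :=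
  (measure_mono (symmDiff_triangle s t r)).trans (measure_union_le _ _)

theorem mp_symmDiff {f : MM → MM} (hf : MeasurePreserving f) {s t : Set MM} (hs : MeasurableSet s)
    (ht : MeasurableSet t) : volume ((f ⁻¹' s) ∆ (f ⁻¹' t)) = volume (s ∆ t) := by
  rw [← preimage_symmDiff]
  exact hf.measure_preimage (hs.symmDiff ht).nullMeasurableSet

theorem dd_eq_zero {f : MM → MM} {s : Set MM} (h : f ⁻¹' s = s) : dd f s = 0 := by
  rw [dd, h, symmDiff_self]
  exact measure_empty

end Pool.Agent.R327.SE
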