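import Pool.Agent.R327.SE.Osc
import Pool.Agent.R327.SE.LemA

/-!
# The family of skew products
-/

set_option autoImplicit false

open MeasureTheory Filter Topology Set
open scoped Real ContDiff symmDiff ENNReal

namespace Pool.Agent.R327.SE

/-- a continuous periodic real function as a map of the circle to itself -/
noncomputable def per (f : ℝ → ℝ) (hf : Continuous f) (hp : ∀ x, f (x + 1) = f x) : C(TT, TT) where
  toFun := Function.Periodic.lift (f := fun x => ((f x : ℝ) : TT)) (c := 1)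
    (by intro x; simp only [hp])
  continuous_toFun := continuous_coinduced_dom.2 ((AddCircle.continuous_mk' 1).comp hf)

theorem per_coe (f : ℝ → ℝ) (hf : Continuous f) (hp : ∀ x, f (x + 1) = f x) (x : ℝ) :
    per f hf hp (x : TT) = ((f x : ℝ) : TT) := rfl

theorem TT_ind {P : TT → Prop} (h : ∀ x : ℝ, P (x : TT)) (u : TT) : P u := by
  obtain ⟨x, rfl⟩ := QuotientAddGroup.mk_surjective u
  exact h x

theorem coe_norm_le (x : ℝ) : ‖(x : TT)‖ ≤ |x| := by
  rw [AddCircle.norm_eq]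
  simp only [inv_one, one_mul, mul_one]
  exact round_le x 0 |>.trans (by simp)

/-- the cocycle as a map of the circle -/
noncomputable def phT (θ : ℕ → ℝ) (hθ : Adm θ) (N : ℕ) : C(TT, TT) :=
  per (ph θ N) (ph_cont hθ N) (ph_per θ N)

/-- the skew product -/
noncomputable def Tm (θ : ℕ → ℝ) (hθ : Adm θ) : C(MM, MM) := sk (al : TT) (phT θ hθ 1)

theorem Tm_iter (θ : ℕ → ℝ) (hθ : Adm θ) (N : ℕ) (p : MM) :
    (Tm θ hθ)^[N] p = sk ((N * al : ℝ) : TT) (phT θ hθ N) p := by
  obtain ⟨u, v⟩ := p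
  revert v
  refine TT_ind (P := fun u => ∀ v : TT, (Tm θ hθ)^[N] (u, v) =
    sk ((N * al : ℝ) : TT) (phT θ hθ N) (u, v)) ?_ u
  intro x v
  induction N with
  | zero =>
    simp only [Function.iterate_zero, id, sk_apply, phT, per_coe, ph_zero]
    simp
  | succ N ih =>
    rw [Function.iterate_succ_apply', ih]
    simp only [Tm, sk_apply, phT, per_coe, ← AddCircle.coe_add]
    rw [ph_succ hθ N x]
    refine Prod.ext ?_ ?_
    · simp only
      congr 1
      push_cast
      ring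
    · simp only [AddCircle.coe_add, add_assoc]

/-- the vertical displacement -/
noncomputable def ww : C(TT, TT) :=
  per (fun x => 2 * Real.cos (2 * π * x)) (by fun_prop)
    (by
      intro x
      have : 2 * π * (x + 1) = 2 * π * x + 2 * π := by ring
      simp only [this, Real.cos_add_two_pi])

theorem ww_coe (x : ℝ) : ww (x : TT) = ((2 * Real.cos (2 * π * x) : ℝ) : TT) := rfl

theorem wq_coe (m : ℕ) (x : ℝ) : wq ww (QQ m) 0 (x : TT) = ((2 * cosk m x : ℝ) : TT) := by
  have h : wq ww (QQ m) 0 (x : TT) = ww (QQ m • (x : TT) + 0) := rfl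
  rw [h, add_zero, ← AddCircle.coe_nsmul, ww_coe, nsmul_eq_mul, cosk]
  congr 3
  ring

/-- small real functions -/
theorem tendsto_small {ι : Type*} {l : Filter ι} (g : ι → C(TT, TT)) (r : ι → ℝ → ℝ) (e : ι → ℝ)
    (hg : ∀ i (x : ℝ), g i (x : TT) = ((r i x : ℝ) : TT)) (hr : ∀ i x, |r i x| ≤ e i)
    (he : Tendsto e l (𝓝 0)) : Tendsto g l (𝓝 0) := by
  rw [ContinuousMap.tendsto_iff_tendstoUniformly, Metric.tendstoUniformly_iff]
  intro ε hε
  filter_upwards [he.eventually (gt_mem_nhds hε)] with i hi u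
  refine TT_ind (P := fun u => dist ((0 : C(TT, TT)) u) (g i u) < ε) (fun x => ?_) u
  rw [ContinuousMap.zero_apply, dist_zero_left, hg]
  exact ((coe_norm_le _).trans (hr i x)).trans_lt hi

theorem NN_tendsto {ι : Type*} {l : Filter ι} {m : ι → ℕ} (hm : Tendsto m l atTop) :
    Tendsto (fun i => (((NN (m i) : ℝ) * al : ℝ) : TT)) l (𝓝 0) := by
  have h1 : Tendsto (fun i => (1 : ℝ) / QQ (m i)) l (𝓝 0) :=
    tendsto_const_nhds.div_atTop (tendsto_natCast_atTop_atTop.comp (QQ_tendsto.comp hm))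
  rw [tendsto_zero_iff_norm_tendsto_zero]
  refine squeeze_zero (fun _ => norm_nonneg _) (fun i => ?_) h1
  rw [NN_al]
  refine (coe_norm_le _).trans ?_
  have := rr_pos (m i)
  rw [abs_of_nonneg (by positivity)]
  exact NN_rr (m i)

theorem iter_small {ι : Type*} {l : Filter ι} {m : ι → ℕ} (hm : Tendsto m l atTop) {θ : ℕ → ℝ}
    (hθ : Adm θ) (h0 : Tendsto (fun i => θ (m i)) l (𝓝 0)) {s : Set MM} (hs : MeasurableSet s) :
    Tendsto (fun i => dd ((Tm θ hθ)^[NN (m i)]) s) l (𝓝 0) := by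
  have e1 : ∀ i, (Tm θ hθ)^[NN (m i)] = sk ((NN (m i) * al : ℝ) : TT) (phT θ hθ (NN (m i))) :=
    fun i => funext fun p => Tm_iter θ hθ _ p
  simp only [e1]
  refine sk_tendsto_id (NN_tendsto hm) ?_ hs
  refine tendsto_small _ (fun i => ph θ (NN (m i))) (fun i => eps (m i) + 2 * θ (m i)) (fun i x => rfl)
    (fun i x => ?_) ?_
  · have h1 := ph_key hθ (m i) x
    have h2 : |2 * (θ (m i) * cosk (m i) x)| ≤ 2 * θ (m i) := by
      rw [abs_mul, abs_mul, abs_of_nonneg (hθ (m i)).1]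
      have h3 := mul_le_mul_of_nonneg_left (cosk_le (m i) x) (hθ (m i)).1
      rw [mul_one] at h3
      norm_num
      exact h3
    have h3 := abs_sub (ph θ (NN (m i)) x + 2 * (θ (m i) * cosk (m i) x))
      (2 * (θ (m i) * cosk (m i) x))
    rw [add_sub_cancel_right] at h3
    linarith
  · have := (eps_tendsto.comp hm).add (h0.const_mul 2)
    rw [mul_zero, add_zero] at this
    exact this

theorem iter_shear {ι : Type*} {l : Filter ι} {m : ι → ℕ} (hm : Tendsto m l atTop) {θ : ℕ → ℝ}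
    (hθ : Adm θ) (h0 : Tendsto (fun i => θ (m i)) l (𝓝 1)) {s : Set MM} (hs : MeasurableSet s)
    (hd : Tendsto (fun i => dd ((Tm θ hθ)^[NN (m i)]) s) l (𝓝 0)) :
    Tendsto (fun i => dd (sk 0 (wq ww (QQ (m i)) 0)) s) l (𝓝 0) := by
  set a : ι → TT := fun i => ((NN (m i) * al : ℝ) : TT) with ha
  set g : ι → C(TT, TT) := fun i => wq ww (QQ (m i)) 0 + phT θ hθ (NN (m i)) with hg
  have hK : Tendsto (fun i => dd (sk (a i) (g i)) s) l (𝓝 0) := by
    refine sk_tendsto_id (NN_tendsto hm) ?_ hs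
    refine tendsto_small _ (fun i x => 2 * cosk (m i) x + ph θ (NN (m i)) x)
      (fun i => eps (m i) + 2 * (1 - θ (m i))) (fun i x => ?_) (fun i x => ?_) ?_
    · simp only [hg, ContinuousMap.add_apply, wq_coe, phT, per_coe, AddCircle.coe_add]
    · have h1 := ph_key hθ (m i) x
      have h2 : |2 * ((1 - θ (m i)) * cosk (m i) x)| ≤ 2 * (1 - θ (m i)) := by
        have h5 : 0 ≤ 1 - θ (m i) := by linarith [(hθ (m i)).2]
        rw [abs_mul, abs_mul, abs_of_nonneg h5]
        have h3 := mul_le_mul_of_nonneg_left (cosk_le (m i) x) h5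
        rw [mul_one] at h3
        norm_num
        linarith
      have h3 := abs_add_le (ph θ (NN (m i)) x + 2 * (θ (m i) * cosk (m i) x))
        (2 * ((1 - θ (m i)) * cosk (m i) x))
      have h4 : ph θ (NN (m i)) x + 2 * (θ (m i) * cosk (m i) x) +
        (2 * ((1 - θ (m i)) * cosk (m i) x)) = 2 * cosk (m i) x + ph θ (NN (m i)) x := by ring
      rw [h4] at h3
      linarith
    · have := (eps_tendsto.comp hm).add ((h0.const_sub 1).const_mul 2)
      rw [sub_self, mul_zero, add_zero] at this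
      exact this
  have hsum := hd.add hK
  rw [add_zero] at hsum
  refine tendsto_of_tendsto_of_tendsto_of_le_of_le tendsto_const_nhds hsum (fun i => zero_le) ?_
  intro i
  have e1 : (Tm θ hθ)^[NN (m i)] = sk (a i) (phT θ hθ (NN (m i))) :=
    funext fun p => Tm_iter θ hθ _ p
  have e2 : sk (a i) (g i) ⁻¹' s = sk 0 (wq ww (QQ (m i)) 0) ⁻¹' ((Tm θ hθ)^[NN (m i)] ⁻¹' s) := by
    rw [e1]
    ext p
    simp only [mem_preimage, sk_apply, hg, ContinuousMap.add_apply, add_zero, add_assoc]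
  have m1 : MeasurableSet ((Tm θ hθ)^[NN (m i)] ⁻¹' s) := by
    rw [e1]
    exact (sk _ _).continuous.measurable hs
  have h1 := dd_tri (sk 0 (wq ww (QQ (m i)) 0) ⁻¹' s)
    (sk 0 (wq ww (QQ (m i)) 0) ⁻¹' ((Tm θ hθ)^[NN (m i)] ⁻¹' s)) s
  rw [mp_symmDiff (sk_mp _ _) hs m1, ← e2, symmDiff_comm s] at h1
  exact h1

theorem exists_root : ∃ c : TT, addOrderOf (ww c) = 0 := by
  refine ⟨((1 / 8 : ℝ) : TT), ?_⟩
  rw [ww_coe]
  have : 2 * Real.cos (2 * π * (1 / 8)) = √2 := by
    have : 2 * π * (1 / 8) = π / 4 := by ring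
    rw [this, Real.cos_pi_div_four]
    ring
  rw [this]
  exact addOrder_irr irrational_sqrt_two

/-! ### ergodicity -/

theorem Tm_mp (θ : ℕ → ℝ) (hθ : Adm θ) : MeasurePreserving (Tm θ hθ) := sk_mp _ _

theorem Tm_ergodic (θ : ℕ → ℝ) (hθ : Adm θ) (h1 : ∀ j, θ (2 * j + 1) = 1) : Ergodic (Tm θ hθ) := by
  refine ⟨Tm_mp θ hθ, ⟨fun s hs hinv => ?_⟩⟩
  have hm : Tendsto (fun j : ℕ => 2 * j + 1) atTop atTop :=
    tendsto_atTop_mono (fun j => by simp only [id]; omega) tendsto_id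
  have hN : ∀ N : ℕ, (Tm θ hθ)^[N] ⁻¹' s = s := by
    intro N
    induction N with
    | zero => rfl
    | succ N ih =>
      rw [Function.iterate_succ, preimage_comp, ih, hinv]
  have h2 := iter_shear hm hθ (by simp only [h1]; exact tendsto_const_nhds) hs
    (by simp only [dd_eq_zero (hN _)]; exact tendsto_const_nhds)
  have h3 := averaging (QQ_tendsto.comp hm) ww hs h2
  obtain ⟨c, hc⟩ := exists_root
  exact erg_of_triv (addOrder_irr al_irr) hc _ hs (dd_const_closed hs ww h3 c) hinv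

/-! ### non isomorphism -/

theorem not_iso {θ θ' : ℕ → ℝ} (hθ : Adm θ) (hθ' : Adm θ') {m : ℕ → ℕ} (hm : Tendsto m atTop atTop)
    (h0 : Tendsto (fun i => θ (m i)) atTop (𝓝 0)) (h1 : Tendsto (fun i => θ' (m i)) atTop (𝓝 1))
    (φ : MM → MM) (hφ : MeasurePreserving φ)
    (hc : φ ∘ (Tm θ hθ) =ᵐ[volume] (Tm θ' hθ') ∘ φ) : False := by
  have hN : ∀ N : ℕ, φ ∘ (Tm θ hθ)^[N] =ᵐ[volume] (Tm θ' hθ')^[N] ∘ φ := by
    intro N
    induction N with
    | zero => exact ae_eq_refl _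
    | succ N ih =>
      have hmp : MeasurePreserving ((Tm θ hθ)^[N]) := (Tm_mp θ hθ).iterate N
      have e1 : φ ∘ (Tm θ hθ)^[N + 1] =ᵐ[volume] ((Tm θ' hθ') ∘ φ) ∘ (Tm θ hθ)^[N] := by
        rw [Function.iterate_succ']
        exact hmp.quasiMeasurePreserving.ae_eq_comp hc
      have e2 : ((Tm θ' hθ') ∘ φ) ∘ (Tm θ hθ)^[N] =ᵐ[volume] (Tm θ' hθ')^[N + 1] ∘ φ := by
        rw [Function.iterate_succ']
        filter_upwards [ih] with p hp
        simp only [Function.comp_apply] at hp ⊢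
        rw [hp]
      exact e1.trans e2
  have hall : ∀ s : Set MM, MeasurableSet s →
      Tendsto (fun i => dd ((Tm θ' hθ')^[NN (m i)]) s) atTop (𝓝 0) := by
    intro s hs
    have h2 := iter_small hm hθ h0 (hφ.measurable hs)
    refine h2.congr fun i => ?_
    have e1 : (Tm θ hθ)^[NN (m i)] ⁻¹' (φ ⁻¹' s) =ᵐ[volume] φ ⁻¹' ((Tm θ' hθ')^[NN (m i)] ⁻¹' s) := by
      filter_upwards [hN (NN (m i))] with p hp
      have hp2 : φ ((Tm θ hθ)^[NN (m i)] p) = (Tm θ' hθ')^[NN (m i)] (φ p) := hp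
      exact congrArg (fun q => q ∈ s) hp2
    have m1 : MeasurableSet ((Tm θ' hθ')^[NN (m i)] ⁻¹' s) :=
      ((Tm_mp θ' hθ').iterate _).measurable hs
    unfold dd
    have e3 : volume (((Tm θ hθ)^[NN (m i)] ⁻¹' (φ ⁻¹' s)) ∆ (φ ⁻¹' s)) =
        volume ((φ ⁻¹' ((Tm θ' hθ')^[NN (m i)] ⁻¹' s)) ∆ (φ ⁻¹' s)) := by
      refine measure_congr ?_
      filter_upwards [e1] with p hp
      have hp' : (p ∈ (Tm θ hθ)^[NN (m i)] ⁻¹' (φ ⁻¹' s)) = (p ∈ φ ⁻¹' ((Tm θ' hθ')^[NN (m i)] ⁻¹' s)) := hp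
      have h5 : (p ∈ ((Tm θ hθ)^[NN (m i)] ⁻¹' (φ ⁻¹' s)) ∆ (φ ⁻¹' s)) =
          (p ∈ (φ ⁻¹' ((Tm θ' hθ')^[NN (m i)] ⁻¹' s)) ∆ (φ ⁻¹' s)) := by
        rw [mem_symmDiff, mem_symmDiff, hp']
      exact h5
    exact e3.trans (mp_symmDiff hφ m1 hs)
  obtain ⟨c, hc2⟩ := exists_root
  obtain ⟨J, hJ, hJ0, hJ1⟩ := exists_J
  have hs : MeasurableSet ((univ : Set TT) ×ˢ J) := MeasurableSet.univ.prod hJ
  have h3 := iter_shear hm hθ' h1 hs (hall _ hs)
  have h4 := averaging (QQ_tendsto.comp hm) ww hs h3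
  exact not_vert hc2 hJ hJ0 hJ1 (dd_const_closed hs ww h4 c)

/-! ### the family -/

noncomputable def th (x : ℕ → ℝ) (k : ℕ) : ℝ :=
  if k % 2 = 1 then 1 else (1 - Real.cos (x (k / 2))) / 2

theorem th_adm (x : ℕ → ℝ) : Adm (th x) := by
  intro k
  unfold th
  split_ifs
  · norm_num
  · have h1 := Real.cos_le_one (x (k / 2))
    have h2 := Real.neg_one_le_cos (x (k / 2))
    constructor <;> linarith

theorem th_odd (x : ℕ → ℝ) (j : ℕ) : th x (2 * j + 1) = 1 := by
  unfold th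
  rw [if_pos (by omega)]

theorem th_even (x : ℕ → ℝ) (j : ℕ) : th x (2 * j) = (1 - Real.cos (x j)) / 2 := by
  unfold th
  rw [if_neg (by omega)]
  congr 4
  omega

/-- the family of skew products -/
noncomputable def Tx (x : ℕ → ℝ) : C(MM, MM) := Tm (th x) (th_adm x)

theorem Tx_ergodic (x : ℕ → ℝ) : Ergodic (Tx x) := Tm_ergodic _ _ (th_odd x)

theorem Tx_not_iso {x y : ℕ → ℝ}
    (h : ∀ N : ℕ, ∃ k, N ≤ k ∧ |x k| ≤ 1 / (N + 1) ∧ |y k - Real.pi| ≤ 1 / (N + 1))
    (φ : MM → MM) (hφ : MeasurePreserving φ) (hc : φ ∘ (Tx x) =ᵐ[volume] (Tx y) ∘ φ) : False := by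
  choose k hk1 hk2 hk3 using h
  have hz : Tendsto (fun N : ℕ => (1 : ℝ) / (N + 1)) atTop (𝓝 0) := tendsto_one_div_add_atTop_nhds_zero_nat
  have hx : Tendsto (fun N => x (k N)) atTop (𝓝 0) := by
    rw [tendsto_zero_iff_norm_tendsto_zero]
    exact squeeze_zero (fun _ => norm_nonneg _) hk2 hz
  have hy : Tendsto (fun N => y (k N)) atTop (𝓝 π) := by
    rw [tendsto_iff_norm_sub_tendsto_zero]
    exact squeeze_zero (fun _ => norm_nonneg _) hk3 hz
  have hc2 : Continuous fun t : ℝ => (1 - Real.cos t) / 2 := by fun_prop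
  refine not_iso (th_adm x) (th_adm y) (m := fun N => 2 * k N) ?_ ?_ ?_ φ hφ hc
  · exact tendsto_atTop_mono (fun N => by have := hk1 N; simp only [id]; omega) tendsto_id
  · simp only [th_even]
    have := (hc2.tendsto 0).comp hx
    simpa [Function.comp_def] using this
  · simp only [th_even]
    have := (hc2.tendsto π).comp hy
    simp only [Real.cos_pi] at this
    have e : ((1 : ℝ) - -1) / 2 = 1 := by norm_num
    rw [e] at this
    exact this

/-! ### isomorphism -/

theorem th_summable {x y : ℕ → ℝ} (h : Summable fun n => |x n - y n|) :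
    Summable fun k => |th x k - th y k| := by
  refine Summable.even_add_odd ?_ ?_
  · simp only [th_even]
    refine Summable.of_nonneg_of_le (fun _ => abs_nonneg _) (fun j => ?_) h
    have h1 := Real.abs_cos_sub_cos_le (y j) (x j)
    have h2 : (1 - Real.cos (x j)) / 2 - (1 - Real.cos (y j)) / 2 =
      (1 / 2) * (Real.cos (y j) - Real.cos (x j)) := by ring
    rw [h2, abs_mul, abs_of_nonneg (by norm_num : (0 : ℝ) ≤ 1 / 2), abs_sub_comm (x j)]
    linarith [abs_nonneg (Real.cos (y j) - Real.cos (x j))]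
  · simp only [th_odd, sub_self, abs_zero]
    exact summable_zero

/-- the transfer function -/
noncomputable def psi (x y : ℕ → ℝ) (u : ℝ) : ℝ := ∑' k, (th x k - th y k) * cosk k u

theorem psi_term_le (x y : ℕ → ℝ) (k : ℕ) (u : ℝ) :
    ‖(th x k - th y k) * cosk k u‖ ≤ |th x k - th y k| := by
  rw [norm_mul]
  have := mul_le_mul_of_nonneg_left (cosk_le k u) (abs_nonneg (th x k - th y k))
  rw [mul_one] at this
  exact this

theorem psi_cont {x y : ℕ → ℝ} (h : Summable fun n => |x n - y n|) : Continuous (psi x y) :=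
  continuous_tsum (fun k => continuous_const.mul (cosk_cont k)) (th_summable h)
    fun k u => psi_term_le x y k u

theorem psi_per (x y : ℕ → ℝ) (u : ℝ) : psi x y (u + 1) = psi x y u := by
  unfold psi
  simp only [cosk_per]

theorem psi_coc {x y : ℕ → ℝ} (h : Summable fun n => |x n - y n|) (u : ℝ) :
    psi x y (u + al) - psi x y u = ph (th x) 1 u - ph (th y) 1 u := by
  unfold psi ph
  have s1 : ∀ u, Summable fun k => (th x k - th y k) * cosk k u := fun u =>
    Summable.of_norm_bounded (th_summable h) fun k => psi_term_le x y k u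
  rw [← (s1 (u + al)).tsum_sub (s1 u),
    ← (ph_summable (th_adm x) 1 u).tsum_sub (ph_summable (th_adm y) 1 u)]
  refine tsum_congr fun k => ?_
  unfold DD
  push_cast
  rw [one_mul]
  ring

theorem Tx_iso {x y : ℕ → ℝ} (h : Summable fun n => |x n - y n|) :
    ∃ φ ψ : MM → MM, MeasurePreserving φ ∧ MeasurePreserving ψ ∧ ψ ∘ φ = id ∧ φ ∘ ψ = id ∧
      φ ∘ (Tx x) = (Tx y) ∘ φ := by
  set g : C(TT, TT) := per (psi x y) (psi_cont h) (psi_per x y) with hg
  refine ⟨sk 0 (-g), sk 0 g, sk_mp _ _, sk_mp _ _, ?_, ?_, ?_⟩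
  · funext p
    simp [sk_apply]
  · funext p
    simp [sk_apply]
  · funext p
    obtain ⟨u, v⟩ := p
    revert v
    refine TT_ind (P := fun u => ∀ v : TT, ((sk 0 (-g)) ∘ (Tx x)) (u, v) =
      ((Tx y) ∘ (sk 0 (-g))) (u, v)) ?_ u
    intro a v
    simp only [Function.comp_apply, Tx, Tm, sk_apply, phT, add_zero, ContinuousMap.neg_apply,
      ← AddCircle.coe_add, hg, per_coe]
    refine Prod.ext rfl ?_
    simp only
    have e := psi_coc h a
    have e2 : ph (th x) 1 a = psi x y (a + al) - psi x y a + ph (th y) 1 a := by linarith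
    rw [e2]
    simp only [AddCircle.coe_add, AddCircle.coe_sub]
    abel

/-! ### measurability -/

theorem Tx_meas (p : MM) : Measurable fun x : ℕ → ℝ => Tx x p := by
  obtain ⟨u, v⟩ := p
  revert v
  refine TT_ind (P := fun u => ∀ v : TT, Measurable fun x : ℕ → ℝ => Tx x (u, v)) ?_ u
  intro a v
  have h1 : Continuous fun x : ℕ → ℝ => ph (th x) 1 a := by
    unfold ph
    refine continuous_tsum (fun k => ?_) (bnd_summable 1) fun k x => term_le (th_adm x) k 1 a
    refine Continuous.mul ?_ continuous_const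
    unfold th
    split_ifs
    · exact continuous_const
    · exact (continuous_const.sub (Real.continuous_cos.comp (continuous_apply _))).div_const _
  have h2 : Continuous fun x : ℕ → ℝ => Tx x ((a : TT), v) := by
    have e : (fun x : ℕ → ℝ => Tx x ((a : TT), v)) = fun x =>
        (((a : TT) + (al : TT), v + ((ph (th x) 1 a : ℝ) : TT)) : MM) := rfl
    rw [e]
    exact continuous_const.prodMk (continuous_const.add ((AddCircle.continuous_mk' 1).comp h1))
  exact h2.measurable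

end Pool.Agent.R327.SE
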